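import Pool.Agent.R239.Besi.Final

/-!
A `C^1` Besicovitch cylindrical transformation over a minimal rotation of the two-dimensional torus.
-/

open Set Topology Filter

namespace Pool.Agent.Results.MP_742cc2_an.C1Besicovitch

/-- The two-dimensional torus. -/
abbrev T2 : Type := UnitAddCircle × UnitAddCircle

/-- The cylindrical transformation `(x, t) ↦ (x + a, t + f x)` of `T2 × ℝ`, as a homeomorphism. -/
def cylinder (a : T2) (f : C(T2, ℝ)) : T2 × ℝ ≃ₜ T2 × ℝ where
  toFun p := (p.1 + a, p.2 + f p.1)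
  invFun p := (p.1 - a, p.2 - f (p.1 - a))
  left_inv p := by simp
  right_inv p := by simp
  continuous_toFun := by fun_prop
  continuous_invFun := by fun_prop

/-- The full orbit of a point under a homeomorphism. -/
def orbit {X : Type} [TopologicalSpace X] (T : X ≃ₜ X) (p : X) : Set X :=
  range fun n : ℤ => (T ^ n) p

lemma discrete_of_tendsto (T : T2 × ℝ ≃ₜ T2 × ℝ) (p : T2 × ℝ)
    (h : ∀ M : ℝ, ∃ n0 : ℤ, ∀ n : ℤ, n0 ≤ |n| → M ≤ ((T ^ n) p).2) :
    DiscreteTopology (orbit T p) := by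
  rw [discreteTopology_subtype_iff']
  rintro y ⟨m, rfl⟩
  set y := (T ^ m) p with hy
  obtain ⟨n0, hn0⟩ := h (y.2 + 1)
  set V : Set (T2 × ℝ) := {q | q.2 < y.2 + 1} with hV
  have hVo : IsOpen V := isOpen_lt continuous_snd continuous_const
  have hfin : (V ∩ orbit T p).Finite := by
    have hf : (Icc (-n0) n0 : Set ℤ).Finite := finite_Icc _ _
    refine (hf.image fun n : ℤ => (T ^ n) p).subset ?_
    rintro q ⟨hq, n, rfl⟩
    refine ⟨n, ?_, rfl⟩
    by_contra hcon
    have h1 : n0 ≤ |n| := by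
      rw [mem_Icc, not_and_or, not_le, not_le] at hcon
      rcases hcon with hc | hc
      · have := neg_le_abs n; omega
      · have := le_abs_self n; omega
    have h2 := hn0 n h1
    have h3 : ((T ^ n) p).2 < y.2 + 1 := hq
    linarith
  refine ⟨V \ ((V ∩ orbit T p) \ {y}), hVo.sdiff (hfin.subset sdiff_subset).isClosed, ?_⟩
  ext q
  constructor
  · rintro ⟨⟨hq1, hq2⟩, hq3⟩
    by_contra hne
    exact hq2 ⟨⟨hq1, hq3⟩, hne⟩
  · rintro rfl
    refine ⟨⟨?_, fun hcon => hcon.2 rfl⟩, ⟨m, rfl⟩⟩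
    show y.2 < y.2 + 1
    linarith

lemma cofinite_of_bound {u : ℤ → ℝ} (h : ∀ M : ℝ, ∃ n0 : ℤ, ∀ n : ℤ, n0 ≤ |n| → M ≤ u n) :
    Tendsto u cofinite atTop := by
  rw [tendsto_atTop]
  intro M
  obtain ⟨n0, hn0⟩ := h M
  rw [eventually_cofinite]
  refine (finite_Icc (-n0) n0).subset ?_
  intro n hn
  by_contra hcon
  apply hn
  apply hn0
  rw [mem_Icc, not_and_or, not_le, not_le] at hcon
  rcases hcon with hc | hc
  · have := neg_le_abs n; omega
  · have := le_abs_self n; omega

/-- There are a minimal rotation of the two-dimensional torus and a `C^1` function on the torus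
whose cylindrical transformation is Besicovitch: it has a dense orbit and a discrete orbit (along
which the second coordinate tends to infinity in both time directions). -/
theorem result : ∃ (a : T2) (f : C(T2, ℝ)),
    ContDiff ℝ 1 (fun x : ℝ × ℝ => f ((x.1 : UnitAddCircle), (x.2 : UnitAddCircle))) ∧
    (∀ x : T2, Dense (range fun n : ℤ => x + n • a)) ∧
    (∃ p : T2 × ℝ, Dense (orbit (cylinder a f) p)) ∧
    ∃ p : T2 × ℝ, DiscreteTopology (orbit (cylinder a f) p) ∧
      Tendsto (fun n : ℤ => ((cylinder a f ^ n) p).2) cofinite atTop := by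
  have hc : cylinder (R239.Besi.toT2 R239.Besi.alpha) R239.Besi.phiC =
      R239.Besi.cyl (R239.Besi.toT2 R239.Besi.alpha) R239.Besi.phiC := rfl
  refine ⟨R239.Besi.toT2 R239.Besi.alpha, R239.Besi.phiC, ?_, R239.Besi.minimal_rotation, ?_,
    (R239.Besi.toT2 0, 0), ?_, ?_⟩
  · have : (fun x : ℝ × ℝ => R239.Besi.phiC ((x.1 : UnitAddCircle), (x.2 : UnitAddCircle))) =
        R239.Besi.phi := funext R239.Besi.phiT_toT2
    rw [this]
    exact R239.Besi.contDiff_phi
  · rw [hc]
    exact R239.Besi.exists_dense_orbit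
  · rw [hc]
    exact discrete_of_tendsto _ _ R239.Besi.origin_orbit
  · rw [hc]
    exact cofinite_of_bound R239.Besi.origin_orbit

end Pool.Agent.Results.MP_742cc2_an.C1Besicovitch
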